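import Pool.Agent.PyrQ.LocalMain

set_option autoImplicit false

open Filter Topology Pool.Agent.PyrQ

namespace Pool.Agent.Results.MP_24bdaa_co.ExtraQuestion

/-- `L` is the asymptotic rate with `q` questions per round, `L'` the one with `q + r` questions, `Λ H` the one with `q` questions and
look-ahead less than `H`. The last clause holds for every strategy for `n` levels of `k` rounds; `h` bounds the number of the vertices of the
final path which were asked `H` or more levels ahead. -/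
theorem result (q r : ℕ) (hq : 1 ≤ q) (hr : 1 ≤ r) : ∃ (L L' : ℝ) (Λ : ℕ → ℝ),
    Tendsto (fun n : ℕ => (n : ℝ) / rounds q n) atTop (𝓝 L) ∧
    Tendsto (fun n : ℕ => (n : ℝ) / rounds (q + r) n) atTop (𝓝 L') ∧
    (∀ n s : ℕ, 1 ≤ n → q ≤ s * r → ((n : ℝ) + (1 / 4) ^ (s + 1)) / rounds q n ≤ L') ∧
    (∀ H : ℕ, 1 ≤ H → Tendsto (fun n : ℕ => (n : ℝ) / localRounds H q n) atTop (𝓝 (Λ H)) ∧
      (∀ n : ℕ, 1 ≤ n → n ≤ H → (n : ℝ) / rounds q n ≤ Λ H) ∧ Λ H ≤ Λ (H + 1) ∧ Λ H ≤ L ∧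
      Λ H + (1 / 4) ^ ((q + 1) * (q * H + 1) + 1) ≤ L') ∧
    Tendsto Λ atTop (𝓝 L) ∧
    ∀ H n k h : ℕ, 1 ≤ H → HitWins H q n h k ∅ (fun _ => none) →
      (n : ℝ) + (1 / 4) ^ ((q + 1) * (q * H + 1) + 1) * k ≤ L' * k + (q + H - 1) * h :=
  Pool.Agent.PyrQ.main_local q r hq hr

end Pool.Agent.Results.MP_24bdaa_co.ExtraQuestion
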